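import Pool.Agent.P8H9.PW.Main

/-! First order averages of exponentials, infinite products of exponentials. -/

set_option autoImplicit false

open Finset Filter Topology

namespace Pool.Agent.P8H9.VX

open Pool.Agent.P8H9.AV Pool.Agent.P8H9.PW

variable {θ : ℕ → ℝ} {B y₀ : ℝ} {z : ℂ}

/-- constants -/
noncomputable def K2 (B A : ℝ) : ℝ := K3 A + (B ^ 2 + B)

theorem Ex_first (hθ : ∀ m, |θ (m + 1)| ≤ B) (hz : ‖z‖ ≤ y₀) (h1 : y₀ < 1) :
    ‖Ex θ z - (1 + θ 1 * z)‖ ≤ K2 B (B / (1 - y₀)) * ‖z‖ ^ 2 := by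
  have hB : 0 ≤ B := (abs_nonneg _).trans (hθ 0)
  have h0 : 0 < 1 - y₀ := by linarith
  have hz0 := norm_nonneg z
  have hz1 : ‖z‖ ≤ 1 := by linarith
  have h2 := Ex_second hθ hz h1
  have h3 : Ex θ z - (1 + θ 1 * z) = (Ex θ z - (1 + θ 1 * z + ((θ 1 : ℂ) ^ 2 + θ 2) / 2 * z ^ 2)) +
      ((θ 1 : ℂ) ^ 2 + θ 2) / 2 * z ^ 2 := by ring
  rw [h3]
  refine (norm_add_le _ _).trans ?_
  have h4 : ‖((θ 1 : ℂ) ^ 2 + θ 2) / 2 * z ^ 2‖ ≤ (B ^ 2 + B) * ‖z‖ ^ 2 := by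
    rw [norm_mul, norm_div, norm_pow]
    refine mul_le_mul_of_nonneg_right ?_ (by positivity)
    have h5 : ‖(θ 1 : ℂ) ^ 2 + θ 2‖ ≤ B ^ 2 + B := by
      refine (norm_add_le _ _).trans ?_
      rw [norm_pow, Complex.norm_real, Complex.norm_real, Real.norm_eq_abs, Real.norm_eq_abs]
      have h6 := hθ 0
      have h7 := hθ 1
      rw [zero_add] at h6
      have h8 := pow_le_pow_left₀ (abs_nonneg _) h6 2
      exact add_le_add h8 h7
    have h6 : ‖(2 : ℂ)‖ = 2 := by norm_num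
    rw [h6]
    have h7 : 0 ≤ B ^ 2 + B := by positivity
    linarith
  have h5 : K3 (B / (1 - y₀)) * ‖z‖ ^ 3 ≤ K3 (B / (1 - y₀)) * ‖z‖ ^ 2 := by
    refine mul_le_mul_of_nonneg_left (pow_le_pow_of_le_one hz0 hz1 (by norm_num)) ?_
    unfold K3
    positivity
  unfold K2
  linarith

section avg

variable {F : Type*} [Field F] [Fintype F] [DecidableEq F]

/-- **averages of exponentials**, first order -/
theorem avg_first {k : ℕ} (Θ : (Fin k → F) → ℕ → ℝ) (ρ : ℕ → ℝ) (Z : Finset (Fin k → F))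
    {B C D : ℝ} (hΘ : ∀ c m, |Θ c (m + 1)| ≤ B) (hρ : ∀ m, |ρ (m + 1)| ≤ B)
    (hZ : (Z.card : ℝ) * Fintype.card F ≤ D * (Fintype.card F : ℝ) ^ k)
    (h₁ : |av F (fun c => Θ c 1)| ≤ C / Fintype.card F)
    (hz : ‖z‖ ≤ y₀) (h1 : y₀ < 1) :
    ‖(∑ c : Fin k → F, if c ∈ Z then Ex ρ z else Ex (Θ c) z) / (Fintype.card F : ℂ) ^ k - 1‖ ≤
      (2 * D * K1 (B / (1 - y₀)) + C) * (‖z‖ / Fintype.card F) +
        K2 B (B / (1 - y₀)) * ‖z‖ ^ 2 := by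
  set q : ℝ := (Fintype.card F : ℝ) with hq
  have hq0 : 0 < q := by
    rw [hq]
    exact_mod_cast Fintype.card_pos
  have hqk : 0 < q ^ k := pow_pos hq0 k
  have hz0 := norm_nonneg z
  have hy0 : 0 ≤ y₀ := hz0.trans hz
  have hz1 : ‖z‖ ≤ 1 := by linarith
  have hB : 0 ≤ B := (abs_nonneg _).trans (hρ 0)
  have h1y : 0 < 1 - y₀ := by linarith
  have hK : 0 ≤ K1 (B / (1 - y₀)) := by unfold K1; positivity
  have hqC : ((Fintype.card F : ℂ)) ^ k = ((q ^ k : ℝ) : ℂ) := by rw [hq]; push_cast; rfl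
  have hsplit : (∑ c : Fin k → F, if c ∈ Z then Ex ρ z else Ex (Θ c) z) / (Fintype.card F : ℂ) ^ k
      - 1 = ((∑ c : Fin k → F, (Ex (Θ c) z - 1)) +
        ∑ c ∈ Z, ((Ex ρ z - 1) - (Ex (Θ c) z - 1))) / ((q ^ k : ℝ) : ℂ) := by
    have h2 : ∑ c : Fin k → F, (if c ∈ Z then Ex ρ z else Ex (Θ c) z) =
        ∑ c : Fin k → F, Ex (Θ c) z + ∑ c ∈ Z, ((Ex ρ z - 1) - (Ex (Θ c) z - 1)) := by
      have h3 : ∑ c ∈ Z, ((Ex ρ z - 1) - (Ex (Θ c) z - 1)) =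
          ∑ c : Fin k → F, if c ∈ Z then ((Ex ρ z - 1) - (Ex (Θ c) z - 1)) else 0 := by
        rw [← sum_filter]
        congr 1
        ext c
        simp
      rw [h3, ← sum_add_distrib]
      refine sum_congr rfl fun c _ => ?_
      split_ifs <;> ring
    have h4 : ((Fintype.card F ^ k : ℕ) : ℂ) = ((q ^ k : ℝ) : ℂ) := by rw [hq]; push_cast; rfl
    have h6 : ∑ c : Fin k → F, (Ex (Θ c) z - 1) =
        ∑ c : Fin k → F, Ex (Θ c) z - ((q ^ k : ℝ) : ℂ) := by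
      rw [sum_sub_distrib, sum_const, card_univ, Fintype.card_fun, Fintype.card_fin, nsmul_one, h4]
    have h5 : ((q ^ k : ℝ) : ℂ) ≠ 0 := by exact_mod_cast hqk.ne'
    rw [h2, hqC, h6, eq_div_iff h5, sub_mul, div_mul_cancel₀ _ h5, one_mul]
    ring
  have hmain : ‖∑ c : Fin k → F, (Ex (Θ c) z - 1)‖ ≤
      q ^ k * (C * (‖z‖ / q) + K2 B (B / (1 - y₀)) * ‖z‖ ^ 2) := by
    have h2 : ∑ c : Fin k → F, (Ex (Θ c) z - 1) =
        (∑ c : Fin k → F, (Ex (Θ c) z - (1 + Θ c 1 * z))) +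
        ((q ^ k * av F (fun c => Θ c 1) : ℝ) : ℂ) * z := by
      have h3 : q ^ k * av F (fun c => Θ c 1) = ∑ c, Θ c 1 := by
        unfold av
        rw [← hq]
        field_simp
      rw [h3]
      push_cast
      rw [sum_mul, ← sum_add_distrib]
      refine sum_congr rfl fun c _ => ?_
      ring
    rw [h2]
    refine (norm_add_le _ _).trans ?_
    have h3 : ‖∑ c : Fin k → F, (Ex (Θ c) z - (1 + Θ c 1 * z))‖ ≤
        q ^ k * (K2 B (B / (1 - y₀)) * ‖z‖ ^ 2) := by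
      refine (norm_sum_le _ _).trans ((sum_le_card_nsmul _ _ _
        fun c _ => Ex_first (hΘ c) hz h1).trans_eq ?_)
      rw [card_univ, Fintype.card_fun, Fintype.card_fin, nsmul_eq_mul]
      push_cast
      rfl
    have h4 : ‖((q ^ k * av F (fun c => Θ c 1) : ℝ) : ℂ) * z‖ ≤ q ^ k * (C / q * ‖z‖) := by
      rw [norm_mul, Complex.norm_real, Real.norm_eq_abs, abs_mul, abs_of_pos hqk, mul_assoc]
      gcongr
    refine (add_le_add h3 h4).trans_eq ?_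
    ring
  have hbad : ‖∑ c ∈ Z, ((Ex ρ z - 1) - (Ex (Θ c) z - 1))‖ ≤
      (Z.card : ℝ) * (2 * (K1 (B / (1 - y₀)) * ‖z‖)) := by
    refine (norm_sum_le _ _).trans ((sum_le_card_nsmul _ _ _ fun c _ => ?_).trans_eq
      (nsmul_eq_mul _ _))
    refine (norm_sub_le _ _).trans ?_
    have h2 := Ex_sub_one hρ hz h1
    have h3 := Ex_sub_one (hΘ c) hz h1
    linarith
  rw [hsplit, norm_div, Complex.norm_real, Real.norm_of_nonneg hqk.le, div_le_iff₀ hqk]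
  refine (norm_add_le _ _).trans ((add_le_add hmain hbad).trans ?_)
  have h5 : (Z.card : ℝ) ≤ D / q * q ^ k := by
    rw [div_mul_eq_mul_div, le_div_iff₀ hq0]
    exact hZ
  have h6 : 0 ≤ 2 * (K1 (B / (1 - y₀)) * ‖z‖) := by positivity
  have h7 := mul_le_mul_of_nonneg_right h5 h6
  calc _ ≤ q ^ k * (C * (‖z‖ / q) + K2 B (B / (1 - y₀)) * ‖z‖ ^ 2) +
        D / q * q ^ k * (2 * (K1 (B / (1 - y₀)) * ‖z‖)) := by linarith
    _ = _ := by ring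

end avg

/-- the logarithm of `Ex` -/
noncomputable def Lx (θ : ℕ → ℝ) (z : ℂ) : ℂ :=
  ∑' m : ℕ, (θ (m + 1) : ℂ) * z ^ (m + 1) / (m + 1 : ℂ)

theorem Ex_eq (θ : ℕ → ℝ) (z : ℂ) : Ex θ z = Complex.exp (Lx θ z) := rfl

theorem Ex_ne_zero (θ : ℕ → ℝ) (z : ℂ) : Ex θ z ≠ 0 := Complex.exp_ne_zero _

theorem Lx_le (hθ : ∀ m, |θ (m + 1)| ≤ B) (hz : ‖z‖ ≤ y₀) (h1 : y₀ < 1) :
    ‖Lx θ z‖ ≤ B / (1 - y₀) * ‖z‖ := by
  have h2 := tail_Ex hθ hz h1 0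
  simpa [Lx] using h2

/-- infinite products -/
theorem hasProd_Ex {ι : Type*} (θ : ι → ℕ → ℝ) (z : ι → ℂ) (u : ι → ℝ) (hu : Summable u)
    (hθ : ∀ i m, |θ i (m + 1)| ≤ B) (hz : ∀ i, ‖z i‖ ≤ y₀) (hz' : ∀ i, ‖z i‖ ≤ u i)
    (h1 : y₀ < 1) :
    HasProd (fun i => Ex (θ i) (z i)) (Complex.exp (∑' i, Lx (θ i) (z i))) := by
  rcases isEmpty_or_nonempty ι with h | ⟨⟨i₀⟩⟩
  · simp
  have hB : 0 ≤ B := (abs_nonneg _).trans (hθ i₀ 0)
  have h1y : 0 < 1 - y₀ := by linarith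
  have hs : Summable fun i => Lx (θ i) (z i) := by
    refine Summable.of_norm_bounded (g := fun i => B / (1 - y₀) * u i) (hu.mul_left _) fun i => ?_
    refine (Lx_le (hθ i) (hz i) h1).trans ?_
    exact mul_le_mul_of_nonneg_left (hz' i) (by positivity)
  exact hs.hasSum.cexp

theorem Ex_sum {ι : Type*} (S : Finset ι) (θ : ι → ℕ → ℝ) (B : ι → ℝ)
    (hθ : ∀ i ∈ S, ∀ m, |θ i (m + 1)| ≤ B i) (hz : ‖z‖ < 1) :
    Ex (fun m => ∑ i ∈ S, θ i m) z = ∏ i ∈ S, Ex (θ i) z := by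
  classical
  induction S using Finset.induction_on with
  | empty =>
    simp [Ex]
  | insert i S hi ih =>
    rw [prod_insert hi, ← ih fun j hj => hθ j (mem_insert_of_mem hj)]
    have h1 : (fun m => ∑ j ∈ insert i S, θ j m) = fun m => θ i m + ∑ j ∈ S, θ j m := by
      funext m
      rw [sum_insert hi]
    rw [h1]
    refine Ex_add (hθ i (mem_insert_self _ _)) (B' := ∑ j ∈ S, B j) (fun m => ?_) hz
    exact (abs_sum_le_sum_abs _ _).trans (sum_le_sum fun j hj => hθ j (mem_insert_of_mem hj) m)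

theorem Ex_zpow (θ : ℕ → ℝ) (a : ℤ) (z : ℂ) : Ex (fun m => θ m * a) z = Ex θ z ^ a := by
  unfold Ex
  rw [← Complex.exp_int_mul, ← tsum_mul_left]
  congr 1
  refine tsum_congr fun m => ?_
  push_cast
  ring

end Pool.Agent.P8H9.VX
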