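import Pool.Agent.P8H9.VX.Avg
import Pool.Agent.P8H9.PW.Fin

/-! The mean over the family for arbitrary bounded weights: first order. -/

set_option autoImplicit false

open Finset Filter Topology Polynomial

namespace Pool.Agent.P8H9.VX

open Pool.Agent.H341R2 Pool.Agent.H341R2.Sharp Pool.Agent.P8H9.AV Pool.Agent.P8H9.PV
open Pool.Agent.P8H9.PW

attribute [local instance] AV.fp

theorem pn_natDegree' (n : ℕ) : ∀ i, (pn n i).natDegree ≤ n := by
  induction n with
  | zero =>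
    intro i
    rw [pn_zero]
    split_ifs <;> simp
  | succ n ih =>
    intro i
    rw [pn_succ]
    refine (natDegree_add_le _ _).trans (max_le ((natDegree_add_le _ _).trans
      (max_le ((ih i).trans (by omega)) ?_)) ?_)
    · split_ifs with h
      · refine natDegree_mul_le.trans ?_
        have := ih (i - 1)
        rw [natDegree_X]
        omega
      · simp
    · split_ifs with h
      · exact (ih (i - 2)).trans (by omega)
      · simp

variable (x : ℕ → Nat.Primes → ℕ → ℝ) (B : Finset ℕ) (n j : ℕ)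

/-- the local exponents -/
noncomputable def tx (p : Nat.Primes) (g : (ZMod p)[X]) (m : ℕ) : ℝ := by
  classical
  exact ∑ b ∈ B, x b p m * th n b g m

/-- the reduction -/
noncomputable def rx (p : Nat.Primes) (m : ℕ) : ℝ := -∑ b ∈ B, x b p m * (aa n b : ℝ)

/-- the Euler factor as a function on `(ℤ/p)^k` -/
noncomputable def gX (f : ℤ[X]) (k : ℕ) (s : ℂ) (p : Nat.Primes) (a : Fin k → ZMod p) : ℂ := by
  classical
  exact if (p : ℕ) = 2 then 1 else
    if (fam (red f p) a).Separable then Ex (tx x B n p (fam (red f p) a)) (zz j p s) else 1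

/-- the local mean -/
noncomputable def EX (f : ℤ[X]) (k : ℕ) (p : Nat.Primes) (s : ℂ) : ℂ :=
  (∑ a : Fin k → ZMod p, gX x B n j f k s p a) / ((p : ℕ) : ℂ) ^ k

/-- the factors of the regular part -/
noncomputable def NX (f : ℤ[X]) (k : ℕ) (p : Nat.Primes) (s : ℂ) : ℂ :=
  EX x B n j f k p s * Ex (rx x B n p) (zz j p s)

/-- constants -/
noncomputable def BX (M : ℕ → ℝ) (d : ℕ) : ℝ := ∑ b ∈ B, M b * (Cp n b d + |(aa n b : ℝ)|)

/-- constants -/
noncomputable def DX (M : ℕ → ℝ) (d : ℕ) : ℝ := ∑ b ∈ B, M b * D1 d (pn n b)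

variable {x B n j} {M : ℕ → ℝ} {f : ℤ[X]} {k : ℕ}

section

variable (hM : ∀ b, 0 ≤ M b) (hx : ∀ b ∈ B, ∀ (p : Nat.Primes) (m : ℕ), |x b p (m + 1)| ≤ M b)

include hM in
theorem BX_nonneg (d : ℕ) : 0 ≤ BX B n M d :=
  sum_nonneg fun b _ => mul_nonneg (hM b) (add_nonneg (Cp_nonneg _ _ _) (abs_nonneg _))

include hM in
theorem DX_nonneg (d : ℕ) : 0 ≤ DX B n M d :=
  sum_nonneg fun b _ => mul_nonneg (hM b) (D1_nonneg _ _)

include hM hx in
theorem tx_bd (hf : f.Monic) (hodd : Odd f.natDegree) (hk : k ≤ f.natDegree) {p : Nat.Primes}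
    (h2 : (p : ℕ) ≠ 2) (a : Fin k → ZMod p) (m : ℕ) :
    |tx x B n p (fam (red f p) a) (m + 1)| ≤ BX B n M f.natDegree := by
  unfold tx BX
  refine (abs_sum_le_sum_abs _ _).trans (sum_le_sum fun b hb => ?_)
  rw [abs_mul]
  refine mul_le_mul (hx b hb p m) ?_ (abs_nonneg _) (hM b)
  have := th_bd' (n := n) (i := b) hf hodd hk h2 a m
  have h3 := abs_nonneg (aa n b : ℝ)
  linarith

include hM hx in
theorem rx_bd (p : Nat.Primes) (m : ℕ) (d : ℕ) : |rx x B n p (m + 1)| ≤ BX B n M d := by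
  unfold rx BX
  rw [abs_neg]
  refine (abs_sum_le_sum_abs _ _).trans (sum_le_sum fun b hb => ?_)
  rw [abs_mul]
  refine mul_le_mul (hx b hb p m) ?_ (abs_nonneg _) (hM b)
  have := Cp_nonneg n b d
  linarith

include hM hx in
theorem Thx_bd (hf : f.Monic) (hodd : Odd f.natDegree) (hk : k ≤ f.natDegree) {p : Nat.Primes}
    (h2 : (p : ℕ) ≠ 2) (a : Fin k → ZMod p) (m : ℕ) :
    |tx x B n p (fam (red f p) a) (m + 1) + rx x B n p (m + 1)| ≤ BX B n M f.natDegree := by
  have h1 : tx x B n p (fam (red f p) a) (m + 1) + rx x B n p (m + 1) =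
      ∑ b ∈ B, x b p (m + 1) * (th n b (fam (red f p) a) (m + 1) - aa n b) := by
    unfold tx rx
    rw [← sub_eq_add_neg, ← sum_sub_distrib]
    exact sum_congr rfl fun b _ => by ring
  rw [h1]
  unfold BX
  refine (abs_sum_le_sum_abs _ _).trans (sum_le_sum fun b hb => ?_)
  rw [abs_mul]
  refine mul_le_mul (hx b hb p m) ?_ (abs_nonneg _) (hM b)
  refine (abs_sub _ _).trans ?_
  have := th_bd' (n := n) (i := b) hf hodd hk h2 a m
  linarith

include hM hx in
theorem gX_sub_one (hf : f.Monic) (hodd : Odd f.natDegree) (hk : k ≤ f.natDegree)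
    (p : Nat.Primes) (a : Fin k → ZMod p) {σ : ℝ} (hσ : (j : ℝ) / 2 < σ) {s : ℂ}
    (hs : σ ≤ s.re) :
    ‖gX x B n j f k s p a - 1‖ ≤ K1 (BX B n M f.natDegree / (1 - (2 : ℝ) ^ ((j : ℝ) / 2 - σ))) *
      ((p : ℕ) : ℝ) ^ ((j : ℝ) / 2 - σ) := by
  obtain ⟨hy0, hy1⟩ := y_bounds j hσ
  have h1y : 0 < 1 - (2 : ℝ) ^ ((j : ℝ) / 2 - σ) := by linarith
  have hC := BX_nonneg (B := B) (n := n) hM f.natDegree
  have hK : 0 ≤ K1 (BX B n M f.natDegree / (1 - (2 : ℝ) ^ ((j : ℝ) / 2 - σ))) := by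
    unfold K1; positivity
  unfold gX
  split_ifs with h2 h3
  · rw [sub_self, norm_zero]
    positivity
  · refine (Ex_sub_one (tx_bd hM hx hf hodd hk h2 a) ((zz_le j p hs).trans (pow_le_two j p hσ))
      hy1).trans ?_
    exact mul_le_mul_of_nonneg_left (zz_le j p hs) hK
  · rw [sub_self, norm_zero]
    positivity

theorem EX_sub_one_le (p : Nat.Primes) (s : ℂ) (C : ℝ)
    (h : ∀ a : Fin k → ZMod p, ‖gX x B n j f k s p a - 1‖ ≤ C) : ‖EX x B n j f k p s - 1‖ ≤ C := by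
  have hp : (0 : ℝ) < ((p : ℕ) : ℝ) ^ k := by
    have : (0 : ℝ) < p := by exact_mod_cast p.2.pos
    positivity
  have hp' : ((p : ℕ) : ℂ) ^ k ≠ 0 := pow_ne_zero _ (by exact_mod_cast p.2.ne_zero)
  have h1 : EX x B n j f k p s - 1 =
      (∑ a : Fin k → ZMod p, (gX x B n j f k s p a - 1)) / ((p : ℕ) : ℂ) ^ k := by
    unfold EX
    rw [sum_sub_distrib, sum_const, card_univ, Fintype.card_fun, Fintype.card_fin, ZMod.card,
      nsmul_one, sub_div]
    congr 1
    push_cast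
    rw [div_self hp']
  rw [h1, norm_div, norm_pow, Complex.norm_natCast, div_le_iff₀ hp]
  refine (norm_sum_le _ _).trans ((sum_le_card_nsmul _ _ C fun a _ => h a).trans_eq ?_)
  rw [card_univ, Fintype.card_fun, Fintype.card_fin, ZMod.card, nsmul_eq_mul, mul_comm]
  push_cast
  rfl

include hM hx in
theorem avx_first (hf : f.Monic) (hodd : Odd f.natDegree) (hk : k ≤ f.natDegree)
    (hB : ∀ b ∈ B, min b n ≤ k) {p : Nat.Primes} (h2 : (p : ℕ) ≠ 2) :
    |av (ZMod p) (fun c : Fin k → ZMod p => tx x B n p (fam (red f p) c) 1 + rx x B n p 1)| ≤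
      DX B n M f.natDegree / Fintype.card (ZMod p) := by
  have hF := odd_ringChar h2
  have hrm := red_monic hf p
  have hrd := red_natDegree hf p
  have hq0 : (0 : ℝ) < Fintype.card (ZMod p) := cardF_pos
  have h1 : av (ZMod p) (fun c : Fin k → ZMod p => tx x B n p (fam (red f p) c) 1 + rx x B n p 1) =
      ∑ b ∈ B, x b p 1 * (av (ZMod p) (fun c : Fin k → ZMod p =>
        pR (pn n b) (uu (fam (red f p) c) 1)) - expect (gm 1) (pn n b)) := by
    have h3 : (fun c : Fin k → ZMod p => tx x B n p (fam (red f p) c) 1 + rx x B n p 1) =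
        fun c => ∑ b ∈ B, x b p 1 * (pR (pn n b) (uu (fam (red f p) c) 1) - aa n b) := by
      funext c
      unfold tx rx th
      rw [← sub_eq_add_neg, ← sum_sub_distrib]
      exact sum_congr rfl fun b _ => by ring
    rw [h3, av_sum]
    refine sum_congr rfl fun b _ => ?_
    rw [av_mul, av_sub, av_const]
    rfl
  rw [h1]
  unfold DX
  rw [sum_div]
  refine (abs_sum_le_sum_abs _ _).trans (sum_le_sum fun b hb => ?_)
  rw [abs_mul, mul_div_assoc]
  refine mul_le_mul (hx b hb p 0) ?_ (abs_nonneg _) (hM b)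
  have hdeg : (pn n b).natDegree ≤ k := by
    have h3 := pn_natDegree n b
    have h4 := pn_natDegree' n b
    have h5 := hB b hb
    rcases min_le_iff.1 h5 with h | h <;> omega
  have h6 := av_pR (F := ZMod p) (pn n b) (fun c : Fin k → ZMod p => uu (fam (red f p) c) 1) (gm 1)
    (fun l => CJ (5 * f.natDegree + 2 : ℕ) l) (fun l hl => by
      rw [gm_cast, Int.cast_one]
      have := mom_one (F := ZMod p) hF hrm (by rwa [hrd]) (k := k) (by rwa [hrd]) l (by omega)
      rwa [hrd] at this)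
  exact h6

/-- the bound -/
noncomputable def UX (B : Finset ℕ) (n j : ℕ) (M : ℕ → ℝ) (f : ℤ[X]) (σ : ℝ) (p : Nat.Primes) : ℝ :=
  (2 * f.natDegree * K1 (BX B n M f.natDegree / (1 - (2 : ℝ) ^ ((j : ℝ) / 2 - σ))) +
      DX B n M f.natDegree +
      2 * K1 (BX B n M f.natDegree / (1 - (2 : ℝ) ^ ((j : ℝ) / 2 - σ)))) *
    ((p : ℕ) : ℝ) ^ (((j : ℝ) / 2 - σ) - 1) +
  K2 (BX B n M f.natDegree) (BX B n M f.natDegree / (1 - (2 : ℝ) ^ ((j : ℝ) / 2 - σ))) *
    ((p : ℕ) : ℝ) ^ (2 * ((j : ℝ) / 2 - σ))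

theorem UX_summable {σ : ℝ} (hσ : ((j : ℝ) + 1) / 2 < σ) : Summable (UX B n j M f σ) := by
  unfold UX
  refine Summable.add (Summable.mul_left _ ?_) (Summable.mul_left _ ?_)
  · exact Nat.Primes.summable_rpow.2 (by linarith)
  · exact Nat.Primes.summable_rpow.2 (by linarith)

include hM hx in
theorem NX_sub_one (hf : f.Monic) (hodd : Odd f.natDegree) (hk1 : 1 ≤ k) (hk : k ≤ f.natDegree)
    (hB : ∀ b ∈ B, min b n ≤ k) (p : Nat.Primes) {σ : ℝ} (hσ : (j : ℝ) / 2 < σ) {s : ℂ}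
    (hs : σ ≤ s.re) : ‖NX x B n j f k p s - 1‖ ≤ UX B n j M f σ p := by
  classical
  obtain ⟨hy0, hy1⟩ := y_bounds j hσ
  set y₀ : ℝ := (2 : ℝ) ^ ((j : ℝ) / 2 - σ) with hy
  have h1y : 0 < 1 - y₀ := by linarith
  have hz := zz_le j p hs
  have hz2 := hz.trans (pow_le_two j p hσ)
  have hp0 : (0 : ℝ) < p := by exact_mod_cast p.2.pos
  have hBB : 0 ≤ BX B n M f.natDegree := BX_nonneg hM _
  have hDD : 0 ≤ DX B n M f.natDegree := DX_nonneg hM _
  set A : ℝ := BX B n M f.natDegree / (1 - y₀) with hA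
  have hA0 : 0 ≤ A := by positivity
  have hK1 : 0 ≤ K1 A := by unfold K1; positivity
  have hK3 : 0 ≤ K2 (BX B n M f.natDegree) A := by unfold K2 K3; positivity
  set P : ℝ := ((p : ℕ) : ℝ) ^ ((j : ℝ) / 2 - σ) with hP
  have hP0 : 0 < P := by positivity
  have e1 : ((p : ℕ) : ℝ) ^ (((j : ℝ) / 2 - σ) - 1) = P / p := by
    rw [Real.rpow_sub hp0, Real.rpow_one]
  have e2 : ((p : ℕ) : ℝ) ^ (2 * ((j : ℝ) / 2 - σ)) = P ^ 2 := by
    rw [hP, mul_comm, Real.rpow_mul hp0.le]
    norm_num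
  have hρ : ∀ m, |rx x B n p (m + 1)| ≤ BX B n M f.natDegree := fun m => rx_bd hM hx p m _
  unfold UX
  rw [← hy, ← hA, e1, e2]
  by_cases h2 : (p : ℕ) = 2
  · have h3 : NX x B n j f k p s = Ex (rx x B n p) (zz j p s) := by
      unfold NX EX gX
      simp only [if_pos h2]
      rw [sum_const, card_univ, Fintype.card_fun, Fintype.card_fin, ZMod.card, nsmul_one]
      push_cast
      rw [div_self (pow_ne_zero _ (by exact_mod_cast p.2.ne_zero)), one_mul]
    rw [h3]
    refine (Ex_sub_one hρ hz2 hy1).trans ?_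
    have h4 : K1 A * ‖zz j p s‖ ≤ 2 * K1 A * (P / p) := by
      have h5 : (p : ℝ) = 2 := by exact_mod_cast h2
      rw [h5]
      have := mul_le_mul_of_nonneg_left hz hK1
      linarith
    have h6 : 0 ≤ (2 * f.natDegree * K1 A + DX B n M f.natDegree) * (P / p) := by positivity
    have h7 : 0 ≤ K2 (BX B n M f.natDegree) A * P ^ 2 := by positivity
    rw [add_mul]
    linarith
  · set Z : Finset (Fin k → ZMod p) :=
      univ.filter fun a => ¬ (fam (red f p) a).Separable with hZ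
    have hTh : ∀ (c : Fin k → ZMod p) m,
        |tx x B n p (fam (red f p) c) (m + 1) + rx x B n p (m + 1)| ≤ BX B n M f.natDegree :=
      fun c m => Thx_bd hM hx hf hodd hk h2 c m
    have h3 := avg_first (fun (c : Fin k → ZMod p) m => tx x B n p (fam (red f p) c) m +
        rx x B n p m) (rx x B n p) Z hTh hρ (bad_count hf hk1 hk p) (z := zz j p s)
      (C := DX B n M f.natDegree) (avx_first hM hx hf hodd hk hB h2) hz2 hy1
    have h4 : NX x B n j f k p s = (∑ c : Fin k → ZMod p, if c ∈ Z then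
        Ex (rx x B n p) (zz j p s) else
        Ex (fun m => tx x B n p (fam (red f p) c) m + rx x B n p m) (zz j p s)) /
          (Fintype.card (ZMod p) : ℂ) ^ k := by
      unfold NX EX
      rw [ZMod.card, div_mul_eq_mul_div, sum_mul]
      congr 1
      refine sum_congr rfl fun c _ => ?_
      unfold gX
      rw [if_neg h2]
      have h5 : c ∈ Z ↔ ¬ (fam (red f p) c).Separable := by
        rw [hZ, mem_filter]
        simp
      by_cases h6 : (fam (red f p) c).Separable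
      · rw [if_pos h6, if_neg (fun h => (h5.1 h) h6)]
        exact (Ex_add (tx_bd hM hx hf hodd hk h2 c) hρ (lt_of_le_of_lt hz2 hy1)).symm
      · rw [if_neg h6, if_pos (h5.2 h6), one_mul]
    rw [h4]
    refine h3.trans ?_
    rw [ZMod.card, ← hA]
    have g1 : ‖zz j p s‖ / ((p : ℕ) : ℝ) ≤ P / p := by gcongr
    have g2 : ‖zz j p s‖ ^ 2 ≤ P ^ 2 := pow_le_pow_left₀ (norm_nonneg _) hz 2
    refine add_le_add (mul_le_mul ?_ g1 (by positivity) (by positivity))
      (mul_le_mul_of_nonneg_left g2 hK3)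
    linarith

include hM hx in
theorem gX_diff (hf : f.Monic) (hodd : Odd f.natDegree) (hk : k ≤ f.natDegree) (p : Nat.Primes)
    (a : Fin k → ZMod p) {s : ℂ} (hs : (j : ℝ) / 2 < s.re) :
    DifferentiableAt ℂ (fun s => gX x B n j f k s p a) s := by
  unfold gX
  by_cases h2 : (p : ℕ) = 2
  · simp_rw [if_pos h2]
    exact differentiableAt_const 1
  · simp_rw [if_neg h2]
    by_cases h3 : (fam (red f p) a).Separable
    swap
    · simp_rw [if_neg h3]
      exact differentiableAt_const 1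
    · simp_rw [if_pos h3]
      have h6 : ‖zz j p s‖ < 1 :=
        ((zz_le j p le_rfl).trans (pow_le_two j p hs)).trans_lt (y_bounds j hs).2
      exact DifferentiableAt.comp (g := Ex (tx x B n p (fam (red f p) a))) s
        (Ex_diff (tx_bd hM hx hf hodd hk h2 a) h6) (zz_diff j p s)

include hM hx in
theorem NX_diff (hf : f.Monic) (hodd : Odd f.natDegree) (hk : k ≤ f.natDegree) (p : Nat.Primes)
    {s : ℂ} (hs : (j : ℝ) / 2 < s.re) : DifferentiableAt ℂ (NX x B n j f k p) s := by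
  unfold NX
  have h6 : ‖zz j p s‖ < 1 :=
    ((zz_le j p le_rfl).trans (pow_le_two j p hs)).trans_lt (y_bounds j hs).2
  refine DifferentiableAt.mul ?_ ?_
  · unfold EX
    refine DifferentiableAt.div_const ?_ _
    exact DifferentiableAt.fun_sum fun a _ => gX_diff hM hx hf hodd hk p a hs
  · exact DifferentiableAt.comp (g := Ex (rx x B n p)) s
      (Ex_diff (fun m => rx_bd hM hx p m f.natDegree) h6) (zz_diff j p s)

theorem NX_pos (p : Nat.Primes) (σ : ℝ) : ∃ r : ℝ, 0 < r ∧ NX x B n j f k p (σ : ℂ) = r := by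
  have h1 : ∀ a : Fin k → ZMod p, ∃ r : ℝ, 0 < r ∧ gX x B n j f k (σ : ℂ) p a = r := by
    intro a
    unfold gX
    split_ifs
    · exact ⟨1, one_pos, by simp⟩
    · rw [zz_real]
      exact Ex_pos _ _
    · exact ⟨1, one_pos, by simp⟩
  choose r hr1 hr2 using h1
  obtain ⟨t, ht1, ht2⟩ : ∃ t : ℝ, 0 < t ∧ Ex (rx x B n p) (zz j p (σ : ℂ)) = t := by
    rw [zz_real]
    exact Ex_pos _ _
  have hp : (0 : ℝ) < p := by exact_mod_cast p.2.pos
  refine ⟨(∑ a, r a) / ((p : ℕ) : ℝ) ^ k * t,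
    mul_pos (div_pos (sum_pos (fun a _ => hr1 a) ⟨0, mem_univ _⟩) (by positivity)) ht1, ?_⟩
  unfold NX EX
  rw [sum_congr rfl fun a _ => hr2 a, ht2]
  push_cast
  rfl

/-- the regular part of the mean -/
noncomputable def NNX (x : ℕ → Nat.Primes → ℕ → ℝ) (B : Finset ℕ) (n j : ℕ) (f : ℤ[X]) (k : ℕ)
    (s : ℂ) : ℂ := ∏' p : Nat.Primes, NX x B n j f k p s

include hM hx in
theorem NNX_diff (hf : f.Monic) (hodd : Odd f.natDegree) (hk1 : 1 ≤ k) (hk : k ≤ f.natDegree)
    (hB : ∀ b ∈ B, min b n ≤ k) :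
    DifferentiableOn ℂ (NNX x B n j f k) {s : ℂ | ((j : ℝ) + 1) / 2 < s.re} :=
  diff_of (NX x B n j f k) _ (UX B n j M f) (fun σ hσ => UX_summable hσ)
    (fun σ hσ s hs p => NX_sub_one hM hx hf hodd hk1 hk hB p (by linarith) hs)
    (fun p s hs => NX_diff hM hx hf hodd hk p (by linarith))

include hM hx in
theorem NNX_pos (hf : f.Monic) (hodd : Odd f.natDegree) (hk1 : 1 ≤ k) (hk : k ≤ f.natDegree)
    (hB : ∀ b ∈ B, min b n ≤ k) {σ : ℝ} (hσ : ((j : ℝ) + 1) / 2 < σ) :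
    ∃ r : ℝ, 0 < r ∧ NNX x B n j f k (σ : ℂ) = r :=
  pos_of _ (UX B n j M f σ) (UX_summable hσ)
    (fun p => NX_sub_one hM hx hf hodd hk1 hk hB p (by linarith) (by simp))
    (fun p => NX_pos p σ)

include hM hx in
/-- the mean of a family of Euler products with these factors -/
theorem mean_LX (hf : f.Monic) (hodd : Odd f.natDegree) (hk : k ≤ f.natDegree)
    (e : (Fin k → ℤ) → Nat.Primes → ℂ → ℂ)
    (he : ∀ (c : Fin k → ℤ) (p : Nat.Primes) (s : ℂ),
      e c p s = gX x B n j f k s p fun i => (c i : ZMod p))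
    {s : ℂ} (hs : (j : ℝ) / 2 + 1 < s.re) :
    Tendsto (fun H : Fin k → ℕ => mean H fun c => ∏' p, e c p s) atTop
      (𝓝 (∏' p, EX x B n j f k p s)) ∧ Multipliable fun p => EX x B n j f k p s := by
  have := nz
  have hs2 : (j : ℝ) / 2 < s.re := by linarith
  set u : Nat.Primes → ℝ := fun p =>
    K1 (BX B n M f.natDegree / (1 - (2 : ℝ) ^ ((j : ℝ) / 2 - s.re))) *
      ((p : ℕ) : ℝ) ^ ((j : ℝ) / 2 - s.re) with hu
  have hsum : Summable u := Summable.mul_left _ (Nat.Primes.summable_rpow.2 (by linarith))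
  have hg : ∀ (p : Nat.Primes) (a : Fin k → ZMod p), ‖gX x B n j f k s p a - 1‖ ≤ u p :=
    fun p a => gX_sub_one hM hx hf hodd hk p a hs2 le_rfl
  have hE : ∀ p, ‖EX x B n j f k p s - 1‖ ≤ u p := fun p => EX_sub_one_le p s (u p) (hg p)
  refine ⟨?_, multipliable_of _ u hsum hE⟩
  rw [Metric.tendsto_atTop]
  intro ε hε
  obtain ⟨S, hS⟩ := tail_small u hsum (by positivity : (0 : ℝ) < ε / 3)
  have h1 : Tendsto (fun H : Fin k → ℕ => mean H fun c => ∏ p ∈ S, e c p s) atTop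
      (𝓝 (∏ p ∈ S, EX x B n j f k p s)) := by
    have h1 := mean_prod k S (gX x B n j f k s)
    refine h1.congr fun H => ?_
    congr 1
    funext c
    exact prod_congr rfl fun p _ => (he c p s).symm
  rw [Metric.tendsto_atTop] at h1
  obtain ⟨N, hN⟩ := h1 (ε / 3) (by positivity)
  refine ⟨N, fun H hH => ?_⟩
  have h2 := hN H hH
  rw [dist_eq_norm] at h2 ⊢
  have h3 : ‖mean H (fun c => ∏' p, e c p s) -
      mean H (fun c => ∏ p ∈ S, e c p s)‖ ≤ ε / 3 := by
    rw [← mean_sub]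
    refine norm_mean_le H _ _ fun c => ?_
    have h4 := prod_tail (fun p => e c p s) u hsum (fun p => by
      rw [he c p s]
      exact hg p _) S
    exact h4.trans hS.le
  have h5 : ‖∏' p, EX x B n j f k p s - ∏ p ∈ S, EX x B n j f k p s‖ ≤ ε / 3 :=
    (prod_tail (fun p => EX x B n j f k p s) u hsum hE S).trans hS.le
  calc ‖mean H (fun c => ∏' p, e c p s) - ∏' p, EX x B n j f k p s‖
      = ‖(mean H (fun c => ∏' p, e c p s) - mean H (fun c => ∏ p ∈ S, e c p s)) +
        (mean H (fun c => ∏ p ∈ S, e c p s) - ∏ p ∈ S, EX x B n j f k p s) -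
        (∏' p, EX x B n j f k p s - ∏ p ∈ S, EX x B n j f k p s)‖ := by
          congr 1
          ring
    _ ≤ ‖mean H (fun c => ∏' p, e c p s) - mean H (fun c => ∏ p ∈ S, e c p s)‖ +
        ‖mean H (fun c => ∏ p ∈ S, e c p s) - ∏ p ∈ S, EX x B n j f k p s‖ +
        ‖∏' p, EX x B n j f k p s - ∏ p ∈ S, EX x B n j f k p s‖ :=
          (norm_sub_le _ _).trans (add_le_add (norm_add_le _ _) le_rfl)
    _ < ε := by linarith

include hM hx in
/-- the product of the local means -/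
theorem mean_eqX (hf : f.Monic) (hodd : Odd f.natDegree) (hk : k ≤ f.natDegree)
    {s : ℂ} (hs : (j : ℝ) / 2 + 1 < s.re) (hmul : Multipliable fun p => EX x B n j f k p s) :
    ∏' p, EX x B n j f k p s =
      (∏ b ∈ B, (∏' p, Ex (x b p) (zz j p s)) ^ aa n b) * NNX x B n j f k s := by
  have hs2 : (j : ℝ) / 2 < s.re := by linarith
  obtain ⟨hy0, hy1⟩ := y_bounds j hs2
  have hsum : Summable fun p : Nat.Primes => ((p : ℕ) : ℝ) ^ ((j : ℝ) / 2 - s.re) :=
    Nat.Primes.summable_rpow.2 (by linarith)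
  have hzz : ∀ p : Nat.Primes, ‖zz j p s‖ ≤ (2 : ℝ) ^ ((j : ℝ) / 2 - s.re) := fun p =>
    (zz_le j p le_rfl).trans (pow_le_two j p hs2)
  have hz1 : ∀ p : Nat.Primes, ‖zz j p s‖ < 1 := fun p => (hzz p).trans_lt hy1
  have hb : ∀ b ∈ B, ∃ L : ℂ, L ≠ 0 ∧ HasProd (fun p => Ex (x b p) (zz j p s)) L := by
    intro b hb
    exact ⟨_, Complex.exp_ne_zero _, hasProd_Ex (B := M b) (fun p => x b p) (fun p => zz j p s) _ hsum
      (fun p m => hx b hb p m) hzz (fun p => zz_le j p le_rfl) hy1⟩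
  -- the correction
  have h1 : HasProd (fun p => Ex (rx x B n p) (zz j p s))
      ((∏ b ∈ B, (∏' p, Ex (x b p) (zz j p s)) ^ aa n b)⁻¹) := by
    have h2 : ∀ p, Ex (rx x B n p) (zz j p s) =
        ∏ b ∈ B, (Ex (x b p) (zz j p s)) ^ (-aa n b) := by
      intro p
      have h3 : rx x B n p = fun m => ∑ b ∈ B, x b p m * ((-aa n b : ℤ) : ℝ) := by
        funext m
        unfold rx
        rw [← sum_neg_distrib]
        refine sum_congr rfl fun b _ => ?_
        push_cast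
        ring
      rw [h3, Ex_sum B (fun b m => x b p m * ((-aa n b : ℤ) : ℝ))
        (fun b => M b * |((-aa n b : ℤ) : ℝ)|) (fun b hb m => by
          rw [abs_mul]
          exact mul_le_mul_of_nonneg_right (hx b hb p m) (abs_nonneg _)) (hz1 p)]
      exact prod_congr rfl fun b _ => Ex_zpow _ _ _
    have h4 : (∏ b ∈ B, (∏' p, Ex (x b p) (zz j p s)) ^ aa n b)⁻¹ =
        ∏ b ∈ B, (∏' p, Ex (x b p) (zz j p s)) ^ (-aa n b) := by
      rw [← prod_inv_distrib]
      exact prod_congr rfl fun b _ => (zpow_neg _ _).symm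
    rw [h4]
    simp_rw [h2]
    refine hasProd_prod fun b hb' => ?_
    obtain ⟨L, hL, hP⟩ := hb b hb'
    rw [hP.tprod_eq]
    have h5 := Filter.Tendsto.zpow₀ hP (-aa n b) (Or.inl hL)
    refine Filter.Tendsto.congr (fun S => ?_) h5
    rw [← prod_zpow]
  have hne : (∏ b ∈ B, (∏' p, Ex (x b p) (zz j p s)) ^ aa n b) ≠ 0 := by
    refine prod_ne_zero_iff.2 fun b hb' => ?_
    obtain ⟨L, hL, hP⟩ := hb b hb'
    rw [hP.tprod_eq]
    exact zpow_ne_zero _ hL
  have h2 : NNX x B n j f k s = (∏' p, EX x B n j f k p s) *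
      (∏ b ∈ B, (∏' p, Ex (x b p) (zz j p s)) ^ aa n b)⁻¹ := (hmul.hasProd.mul h1).tprod_eq
  rw [h2]
  field_simp

end

end Pool.Agent.P8H9.VX
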