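import Pool.Agent.TH958.BV.Defs
import Pool.Agent.H341R2.CurveDefs

/-!
# Products of a variety and powers of hyperelliptic curves: definitions

`X` is a smooth projective variety over `ℚ`, given by homogeneous equations with integral coefficients.
-/

set_option autoImplicit false

namespace Pool.Agent.P8H9.VX

open Finset Polynomial Pool.Agent.H341R2

/-- `β k`, `k = 0, 1, 2, …`, are the multisets of the eigenvalues of the geometric Frobenius at the
prime `p` on `H^k(X)`, `X` a projective variety of dimension `d` given by homogeneous equations with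
integral coefficients: the elements of `β k` are complex numbers of absolute value `p^{k/2}`, `β k` is
empty for `k > 2d`, the traces `∑_{z ∈ β k} z^e` are integers, and for every finite field `κ` with `p^e`
elements the number of the points of `X` with coordinates in `κ` is `∑_k (-1)^k ∑_{z ∈ β k} z^e`
(`cone` is `p^e - 1` times this number).  By the theorem of Deligne such `β` exist at almost all primes
if `X` is smooth, and `β k` has `b_k` elements, `b_k` the Betti numbers of `X`; they are unique. -/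
def IsFrobenius {ν : ℕ} (X : Set (MvPolynomial (Fin ν) ℤ)) (d : ℕ) (p : Nat.Primes)
    (β : ℕ → Multiset ℂ) : Prop :=
  (∀ k, ∀ z ∈ β k, ‖z‖ = ((p : ℕ) : ℝ) ^ ((k : ℝ) / 2)) ∧ (∀ k, 2 * d < k → β k = 0) ∧
    (∀ k e : ℕ, ∃ t : ℤ, ((β k).map fun z => z ^ e).sum = t) ∧
    ∀ (κ : Type) [Field κ] [Finite κ] (e : ℕ), Nat.card κ = (p : ℕ) ^ e →
      (Pool.Agent.TH958.BV.cone X (Int.castRingHom κ) : ℂ) = (((p : ℕ) : ℂ) ^ e - 1) *
        ∑ k ∈ range (2 * d + 1), (-1 : ℂ) ^ k * ((β k).map fun z => z ^ e).sum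

variable (S : Finset Nat.Primes) (β : Nat.Primes → ℕ → Multiset ℂ)

/-- The Euler factor of `L(H^k(X), s)` at the prime `p ∉ S`, `∏_{z ∈ β k} (1 - z p^{-s})⁻¹`; at the
primes in `S` it is `1`. -/
noncomputable def factorX (k : ℕ) (p : Nat.Primes) (s : ℂ) : ℂ :=
  if p ∈ S then 1 else ((β p k).map fun z => (1 - z * ((p : ℕ) : ℂ) ^ (-s))⁻¹).prod

/-- `L(H^k(X), s)`, the product over the primes `p ∉ S`. -/
noncomputable def LX (k : ℕ) (s : ℂ) : ℂ := ∏' p : Nat.Primes, factorX S β k p s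

/-- The trace of the `m`-th power of Frobenius at `p` on `⊕_{b ∈ B} H^{j-b}(X) ⊗ H^b(Cⁿ)`, `C` the curve
`y² = f(x)`; for `B = {0, …, j}` this is `H^j(X × Cⁿ)` by the theorem of Künneth. -/
noncomputable def traceXC (B : Finset ℕ) (n j : ℕ) (f : ℤ[X]) (p : Nat.Primes) (m : ℕ) : ℂ :=
  ∑ b ∈ B, ((β p (j - b)).map fun z => z ^ m).sum * (traceH n b f 1 p m : ℂ)

open Classical in
/-- The Euler factor `det(1 - Frob p^{-s})⁻¹ = exp(∑_{m ≥ 1} Tr(Frob^m) p^{-ms}/m)` of
`⊕_{b ∈ B} H^{j-b}(X) ⊗ H^b(Cⁿ)` at `p`, if `p ∉ S`, `p ≠ 2` and `f` stays separable modulo `p`; `1`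
otherwise. -/
noncomputable def factorXC (B : Finset ℕ) (n j : ℕ) (f : ℤ[X]) (p : Nat.Primes) (s : ℂ) : ℂ :=
  if p ∉ S ∧ GoodPrime f 1 p then
    Complex.exp (∑' m : ℕ, traceXC β B n j f p (m + 1) * ((p : ℕ) : ℂ) ^ (-((m + 1 : ℂ) * s)) /
      (m + 1 : ℂ))
  else 1

/-- The `L`-function of `⊕_{b ∈ B} H^{j-b}(X) ⊗ H^b(Cⁿ)`, `C : y² = f(x)`, the product over the primes
`p ∉ S` of good reduction of `C`. -/
noncomputable def LXC (B : Finset ℕ) (n j : ℕ) (f : ℤ[X]) (s : ℂ) : ℂ :=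
  ∏' p : Nat.Primes, factorXC S β B n j f p s

end Pool.Agent.P8H9.VX
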