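import Pool.Agent.P8H9.VX.Core
import Pool.Agent.P8H9.VX.Defs

/-! The mean of the `L`-functions of products of a variety and powers of curves. -/

set_option autoImplicit false

open Finset Filter Topology Polynomial

namespace Pool.Agent.P8H9.VX

open Pool.Agent.H341R2 Pool.Agent.H341R2.Sharp Pool.Agent.P8H9.AV Pool.Agent.P8H9.PV
open Pool.Agent.P8H9.PW

attribute [local instance] AV.fp

/-- Euler factors of multisets -/
theorem multiset_log (β : Multiset ℂ) (w : ℂ) (h : ∀ z ∈ β, ‖z * w‖ < 1) :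
    HasSum (fun m : ℕ => (β.map fun z => z ^ (m + 1)).sum * w ^ (m + 1) / (m + 1 : ℂ))
      (β.map fun z => -Complex.log (1 - z * w)).sum := by
  induction β using Multiset.induction_on with
  | empty => simpa using hasSum_zero
  | cons a β ih =>
    have h1 := ih fun z hz => h z (Multiset.mem_cons_of_mem hz)
    have h2 := hasSum_log (h a (Multiset.mem_cons_self a β))
    rw [Multiset.map_cons, Multiset.sum_cons]
    refine (h2.add h1).congr_fun fun m => ?_
    rw [Multiset.map_cons, Multiset.sum_cons, mul_pow]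
    ring

theorem multiset_exp (β : Multiset ℂ) (w : ℂ) (h : ∀ z ∈ β, ‖z * w‖ < 1) :
    Complex.exp (β.map fun z => -Complex.log (1 - z * w)).sum =
      (β.map fun z => (1 - z * w)⁻¹).prod := by
  induction β using Multiset.induction_on with
  | empty => simp
  | cons a β ih =>
    rw [Multiset.map_cons, Multiset.sum_cons, Complex.exp_add,
      ih fun z hz => h z (Multiset.mem_cons_of_mem hz), Multiset.map_cons, Multiset.prod_cons,
      Complex.exp_neg, Complex.exp_log]
    intro h1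
    have h2 : a * w = 1 := (sub_eq_zero.1 h1).symm
    have h3 := h a (Multiset.mem_cons_self a β)
    rw [h2, norm_one] at h3
    exact lt_irrefl _ h3

theorem multiset_norm (β : Multiset ℂ) (r : ℝ) (m : ℕ) (h : ∀ z ∈ β, ‖z‖ = r) :
    ‖(β.map fun z => z ^ m).sum‖ ≤ β.card * r ^ m := by
  induction β using Multiset.induction_on with
  | empty => simp
  | cons a β ih =>
    rw [Multiset.map_cons, Multiset.sum_cons, Multiset.card_cons]
    refine (norm_add_le _ _).trans ?_
    have h1 := ih fun z hz => h z (Multiset.mem_cons_of_mem hz)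
    rw [norm_pow, h a (Multiset.mem_cons_self a β)]
    push_cast
    linarith

variable (S : Finset Nat.Primes) (β : Nat.Primes → ℕ → Multiset ℂ) (j : ℕ)

/-- the normalised traces -/
noncomputable def xx (b : ℕ) (p : Nat.Primes) (m : ℕ) : ℝ :=
  if p ∈ S then 0 else
    (((β p (j - b)).map fun z => z ^ m).sum).re / AV.sq (ZMod p) ^ ((j - b) * m)

variable {S β j} {N : ℕ → ℕ} {ν d : ℕ} {X : Set (MvPolynomial (Fin ν) ℤ)}

section

variable (hβ : ∀ p ∉ S, IsFrobenius X d p (β p) ∧ ∀ k, (β p k).card = N k)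

theorem sq_pow (p : Nat.Primes) (k : ℕ) :
    ((p : ℕ) : ℝ) ^ ((k : ℝ) / 2) = AV.sq (ZMod p) ^ k := by
  rw [sq_eq, ← Real.rpow_natCast, ← Real.rpow_mul (by positivity)]
  congr 1
  ring

include hβ in
theorem xx_bd (b : ℕ) (p : Nat.Primes) (m : ℕ) : |xx S β j b p (m + 1)| ≤ (N (j - b) : ℝ) := by
  unfold xx
  split_ifs with h
  · rw [abs_zero]
    positivity
  · obtain ⟨h1, h2⟩ := hβ p h
    have h0 : 0 < AV.sq (ZMod p) ^ ((j - b) * (m + 1)) := pow_pos sq_pos _
    rw [abs_div, abs_of_pos h0, div_le_iff₀ h0, ← h2 (j - b), pow_mul]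
    refine (Complex.abs_re_le_norm _).trans ?_
    exact multiset_norm _ _ _ fun z hz => by rw [h1.1 _ z hz, sq_pow]

include hβ in
theorem xx_eq (b : ℕ) {p : Nat.Primes} (hp : p ∉ S) (m : ℕ) :
    ((β p (j - b)).map fun z => z ^ m).sum =
      ((xx S β j b p m * AV.sq (ZMod p) ^ ((j - b) * m) : ℝ) : ℂ) := by
  obtain ⟨h1, h2⟩ := hβ p hp
  obtain ⟨t, ht⟩ := h1.2.2.1 (j - b) m
  have h0 : AV.sq (ZMod p) ^ ((j - b) * m) ≠ 0 := (pow_pos sq_pos _).ne'
  unfold xx
  rw [if_neg hp, div_mul_cancel₀ _ h0, ht]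
  simp

include hβ in
/-- the Euler factors of `X` -/
theorem Ex_xx (b : ℕ) (hb : b ≤ j) (p : Nat.Primes) {s : ℂ} (hs : (j : ℝ) / 2 < s.re) :
    Ex (xx S β j b p) (zz j p s) = factorX S β (j - b) p (s - b / 2) := by
  unfold factorX
  have hp0 : ((p : ℕ) : ℂ) ≠ 0 := by exact_mod_cast p.2.ne_zero
  split_ifs with h
  · unfold Ex xx
    simp [h]
  · set w : ℂ := ((p : ℕ) : ℂ) ^ (-(s - b / 2)) with hw
    have hbC : ((AV.sq (ZMod p) : ℝ) : ℂ) ^ b * ((p : ℕ) : ℂ) ^ (-s) = w := by
      have h1 := zz_eq b p s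
      unfold zz at h1
      rw [h1, hw]
    have hnorm : ∀ z ∈ β p (j - b), ‖z * w‖ < 1 := by
      intro z hz
      rw [norm_mul, (hβ p h).1.1 _ z hz, sq_pow, ← hbC, norm_mul, norm_pow, Complex.norm_real,
        Real.norm_eq_abs, abs_of_pos sq_pos, ← mul_assoc, ← pow_add, Nat.sub_add_cancel hb]
      have h1 : ‖zz j p s‖ < 1 :=
        ((zz_le j p le_rfl).trans (pow_le_two j p hs)).trans_lt (y_bounds j hs).2
      unfold zz at h1
      rwa [norm_mul, norm_pow, Complex.norm_real, Real.norm_eq_abs, abs_of_pos sq_pos] at h1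
    rw [← multiset_exp _ w hnorm, ← (multiset_log _ w hnorm).tsum_eq]
    unfold Ex
    congr 1
    refine tsum_congr fun m => ?_
    congr 1
    rw [xx_eq hβ b h (m + 1), ← hbC]
    unfold zz
    push_cast
    have h1 : (((AV.sq (ZMod p) : ℝ) : ℂ) ^ j * ((p : ℕ) : ℂ) ^ (-s)) ^ (m + 1) =
        ((AV.sq (ZMod p) : ℝ) : ℂ) ^ ((j - b) * (m + 1)) *
          (((AV.sq (ZMod p) : ℝ) : ℂ) ^ b * ((p : ℕ) : ℂ) ^ (-s)) ^ (m + 1) := by
      rw [mul_pow, mul_pow, ← pow_mul, ← pow_mul, ← mul_assoc, ← pow_add]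
      congr 2
      rw [← add_mul, Nat.sub_add_cancel hb]
    rw [h1]
    ring

include hβ in
/-- the Euler factors of the products -/
theorem factorXC_eq {B : Finset ℕ} (hB : ∀ b ∈ B, b ≤ j) (n : ℕ) {f : ℤ[X]} {k : ℕ}
    (hf : f.Monic) (hodd : Odd f.natDegree) (hk : k ≤ f.natDegree) (c : Fin k → ℤ)
    (p : Nat.Primes) (s : ℂ) :
    factorXC S β B n j (member f c) p s =
      gX (xx S β j) B n j f k s p fun i => (c i : ZMod p) := by
  classical
  obtain ⟨hm, hd⟩ := member_monic hf hk c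
  unfold factorXC gX
  by_cases h2 : (p : ℕ) = 2
  · rw [if_pos h2, if_neg]
    rw [good_iff hm]
    exact fun h => h.2.1 h2
  · rw [if_neg h2, ← red_member]
    by_cases h3 : (red (member f c) p).Separable
    swap
    · rw [if_neg h3, if_neg]
      rw [good_iff hm]
      exact fun h => h3 h.2.2
    rw [if_pos h3]
    have hg : GoodPrime (member f c) 1 p := (good_iff hm p).2 ⟨h2, h3⟩
    by_cases h4 : p ∈ S
    · rw [if_neg (fun h => h.1 h4)]
      unfold Ex tx xx
      simp [h4]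
    · rw [if_pos ⟨h4, hg⟩]
      unfold Ex
      congr 1
      refine tsum_congr fun m => ?_
      congr 1
      have h5 : ∀ b ∈ B, ((β p (j - b)).map fun z => z ^ (m + 1)).sum *
          (traceH n b (member f c) 1 p (m + 1) : ℂ) =
          ((xx S β j b p (m + 1) * th n b (red (member f c) p) (m + 1) : ℝ) : ℂ) *
            (((AV.sq (ZMod p) : ℝ) : ℂ) ^ j) ^ (m + 1) := by
        intro b hb
        rw [xx_eq hβ b h4 (m + 1)]
        have h1 := traceH1_T hg (by rwa [hd]) (m + 1) (Nat.succ_ne_zero m)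
        have h0 := sq_pos (F := ZMod p)
        have h6 : ((traceH n b (member f c) 1 p (m + 1) : ℤ) : ℝ) =
            (AV.sq (ZMod p) ^ (m + 1)) ^ b * th n b (red (member f c) p) (m + 1) := by
          unfold traceH th
          refine coeff_real n b _ _ _ _ ?_ ?_
          · rw [h1]
            unfold uu
            push_cast
            field_simp
          · push_cast
            rw [← pow_mul, mul_comm (m + 1) 2, pow_mul, sq_sq, ZMod.card]
        have h7 : ((traceH n b (member f c) 1 p (m + 1) : ℤ) : ℂ) =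
            (((AV.sq (ZMod p) ^ (m + 1)) ^ b * th n b (red (member f c) p) (m + 1) : ℝ) : ℂ) := by
          rw [← h6]
          push_cast
          rfl
        rw [h7]
        have h8 : (((AV.sq (ZMod p) : ℝ) : ℂ) ^ j) ^ (m + 1) =
            ((AV.sq (ZMod p) : ℝ) : ℂ) ^ ((j - b) * (m + 1)) *
              (((AV.sq (ZMod p) : ℝ) : ℂ) ^ (m + 1)) ^ b := by
          rw [← pow_mul, ← pow_mul, ← pow_add]
          congr 1
          have := hB b hb
          obtain ⟨e, he⟩ := Nat.exists_eq_add_of_le this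
          rw [he, Nat.add_sub_cancel_left]
          ring
        rw [h8]
        push_cast
        ring
      have h9 : ((p : ℕ) : ℂ) ^ (-((m + 1 : ℂ) * s)) = (((p : ℕ) : ℂ) ^ (-s)) ^ (m + 1) := by
        rw [← Complex.cpow_nat_mul]
        congr 1
        push_cast
        ring
      unfold traceXC tx
      rw [sum_congr rfl h5, h9, ← sum_mul]
      unfold zz
      rw [mul_pow]
      push_cast
      ring

include hβ in
/-- **the mean** -/
theorem main {B : Finset ℕ} {n : ℕ} {f : ℤ[X]} {k : ℕ} (hf : f.Monic) (hodd : Odd f.natDegree)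
    (hk1 : 1 ≤ k) (hk : k ≤ f.natDegree) (hB : ∀ b ∈ B, b ≤ j ∧ min b n ≤ k) :
    ∃ G : ℂ → ℂ, DifferentiableOn ℂ G {s : ℂ | ((j : ℝ) + 1) / 2 < s.re} ∧
      (∀ σ : ℝ, ((j : ℝ) + 1) / 2 < σ → ∃ r : ℝ, 0 < r ∧ G (σ : ℂ) = r) ∧
      ∀ s : ℂ, (j : ℝ) / 2 + 1 < s.re →
        Tendsto (fun H : Fin k → ℕ => mean H fun c => LXC S β B n j (member f c) s) atTop
          (𝓝 ((∏ b ∈ B, LX S β (j - b) (s - b / 2) ^ aa n b) * G s)) := by
  have hM : ∀ b, (0 : ℝ) ≤ (N (j - b) : ℝ) := fun b => by positivity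
  have hx : ∀ b ∈ B, ∀ (p : Nat.Primes) (m : ℕ), |xx S β j b p (m + 1)| ≤ (N (j - b) : ℝ) :=
    fun b _ p m => xx_bd hβ b p m
  refine ⟨NNX (xx S β j) B n j f k, NNX_diff hM hx hf hodd hk1 hk fun b hb => (hB b hb).2,
    fun σ hσ => NNX_pos hM hx hf hodd hk1 hk (fun b hb => (hB b hb).2) hσ, fun s hs => ?_⟩
  have h1 := mean_LX hM hx hf hodd hk (fun c p s => factorXC S β B n j (member f c) p s)
    (fun c p s => factorXC_eq hβ (fun b hb => (hB b hb).1) n hf hodd hk c p s) hs
  have h2 := mean_eqX hM hx hf hodd hk hs h1.2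
  have h3 : ∀ b ∈ B, (∏' p, Ex (xx S β j b p) (zz j p s)) = LX S β (j - b) (s - b / 2) := by
    intro b hb
    unfold LX
    exact tprod_congr fun p => Ex_xx hβ b (hB b hb).1 p (by linarith)
  rw [prod_congr rfl fun b hb => by rw [h3 b hb]] at h2
  rw [← h2]
  exact h1.1

end

end Pool.Agent.P8H9.VX
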